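import Pool.Agent.Helper65.KPV.St

/-!
# PROJECT KP, chapter A, part V: module INV (the minimal primes are invariant)
-/

set_option autoImplicit false

namespace Pool.Agent.Helper42.KPV

open Pool.Agent.Helper65.KPV Pool.Agent.Helper5.KPA Pool.Agent.Helper52.KP

section

variable {S : Type} [CommRing S] [IsDomain S] [Algebra ℂ S] {B : Subalgebra ℂ S}
  {τ : S} {h : ℕ} {ξ : Fin h → S} {σ : ℂ → S →ₐ[ℂ] S}

omit [IsDomain S] in
lemma inv_l (hr : RT B τ σ) {c : ℂ} (hc : c ≠ 0) (x : S) : σ c⁻¹ (σ c x) = x := by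
  rw [← hr.mul _ _ _ (inv_ne_zero hc) hc, inv_mul_cancel₀ hc, hr.one]

omit [IsDomain S] in
lemma inv_r (hr : RT B τ σ) {c : ℂ} (hc : c ≠ 0) (x : S) : σ c (σ c⁻¹ x) = x := by
  rw [← hr.mul _ _ _ hc (inv_ne_zero hc), mul_inv_cancel₀ hc, hr.one]

omit [IsDomain S] in
lemma key (hr : RT B τ σ) {c : ℂ} (hc : c ≠ 0) (ζ s : S) :
    s * σ c ζ ∈ B ↔ σ c⁻¹ s * ζ ∈ B := by
  constructor
  · intro h1
    have := hr.stab c⁻¹ (inv_ne_zero hc) _ h1
    rwa [map_mul, inv_l hr hc] at this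
  · intro h1
    have := hr.stab c hc _ h1
    rwa [map_mul, inv_r hr hc] at this

omit [IsDomain S] in
lemma px_image (hr : RT B τ σ) {c : ℂ} (hc : c ≠ 0) {ζ : S} (hz : PX B ζ) : PX B (σ c ζ) := by
  refine ⟨?_, ?_, ?_⟩
  · intro h1
    apply hz.nB
    have := hr.stab c⁻¹ (inv_ne_zero hc) _ h1
    rwa [inv_l hr hc] at this
  · obtain ⟨s, hs, hs0, hsz⟩ := hz.qB
    refine ⟨σ c s, hr.stab c hc _ hs, ?_, ?_⟩
    · intro h0
      apply hs0
      have := congrArg (σ c⁻¹) h0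
      rwa [inv_l hr hc, map_zero] at this
    · rw [← map_mul]
      exact hr.stab c hc _ hsz
  · intro s hs t ht hst
    rw [key hr hc, map_mul] at hst
    rw [key hr hc, key hr hc]
    exact hz.prime _ (hr.stab _ (inv_ne_zero hc) _ hs) _ (hr.stab _ (inv_ne_zero hc) _ ht) hst

omit [IsDomain S] in
lemma step1 (hm : MP B τ ξ) (hr : RT B τ σ) {c : ℂ} (hc : c ≠ 0) (i : Fin h) :
    ∃ j, ∀ s ∈ B, s * ξ j ∈ B → σ c⁻¹ s * ξ i ∈ B := by
  obtain ⟨j, hj⟩ := hm.all (σ c (ξ i)) (px_image hr hc (hm.px i)) (by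
    intro s hs hst
    rw [key hr hc]
    exact hm.le i _ (hr.stab _ (inv_ne_zero hc) _ hs) (hr.idl _ (inv_ne_zero hc) s hs hst))
  refine ⟨j, fun s hs h1 => ?_⟩
  rw [← key hr hc]
  exact hj s hs h1

omit [IsDomain S] in
lemma inj_of (hm : MP B τ ξ) {i j : Fin h} (h1 : ∀ s ∈ B, s * ξ j ∈ B → s * ξ i ∈ B) : i = j := by
  by_contra hij
  obtain ⟨s, hs, h2, h3⟩ := hm.inc i j hij
  exact h3 (h1 s hs h2)

omit [IsDomain S] in
lemma step2 (hm : MP B τ ξ) (hr : RT B τ σ) {c : ℂ} (hc : c ≠ 0) (i : Fin h) :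
    ∃ j, ∀ s ∈ B, (s * ξ i ∈ B ↔ σ c s * ξ j ∈ B) := by
  obtain ⟨j, hj⟩ := step1 hm hr hc i
  obtain ⟨k, hk⟩ := step1 hm hr (inv_ne_zero hc) j
  rw [inv_inv] at hk
  have hik : i = k := by
    apply inj_of hm
    intro s hs h1
    have h2 := hj (σ c s) (hr.stab c hc _ hs) (hk s hs h1)
    rwa [inv_l hr hc] at h2
  subst hik
  refine ⟨j, fun s hs => ⟨hk s hs, fun h1 => ?_⟩⟩
  have h2 := hj (σ c s) (hr.stab c hc _ hs) h1
  rwa [inv_l hr hc] at h2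

omit [IsDomain S] in
lemma uniq (hm : MP B τ ξ) (hr : RT B τ σ) {c : ℂ} (hc : c ≠ 0) {i j j' : Fin h}
    (h1 : ∀ s ∈ B, (s * ξ i ∈ B ↔ σ c s * ξ j ∈ B))
    (h2 : ∀ s ∈ B, (s * ξ i ∈ B ↔ σ c s * ξ j' ∈ B)) : j = j' := by
  apply inj_of hm
  intro t ht h3
  have hs := hr.stab _ (inv_ne_zero hc) t ht
  have h4 := (h2 _ hs).mpr (by rw [inv_r hr hc]; exact h3)
  have h5 := (h1 _ hs).mp h4
  rwa [inv_r hr hc] at h5

end

theorem hINV (hPRM : StPRM) : StINV := by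
  intro S _ _ _ B τ h ξ σ hm hr
  classical
  have hex : ∀ (c : ℂ) (i : Fin h), ∃ j, c ≠ 0 → ∀ s ∈ B, (s * ξ i ∈ B ↔ σ c s * ξ j ∈ B) := by
    intro c i
    by_cases hc : c = 0
    · exact ⟨i, fun h0 => absurd hc h0⟩
    · obtain ⟨j, hj⟩ := step2 hm hr hc i
      exact ⟨j, fun _ => hj⟩
  choose f hf using hex
  have h1 : ∀ i, f 1 i = i := by
    intro i
    apply uniq hm hr one_ne_zero (hf 1 i one_ne_zero)
    intro s _
    rw [hr.one]
  have h2 : ∀ c c' i, c ≠ 0 → c' ≠ 0 → f (c * c') i = f c (f c' i) := by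
    intro c c' i hc hc'
    apply uniq hm hr (mul_ne_zero hc hc') (hf (c * c') i (mul_ne_zero hc hc'))
    intro s hs
    rw [hr.mul _ _ _ hc hc', hf c' i hc' s hs]
    exact hf c (f c' i) hc _ (hr.stab c' hc' _ hs)
  intro c hc i s hs
  have h3 := hf c i hc s hs
  rwa [hPRM h f h1 h2 c i hc] at h3

end Pool.Agent.Helper42.KPV
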